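import Pool.Agent.helper70.QSD.SpecD

/-!
# Project qsd, row REL (relative truth)
-/

set_option linter.unusedVariables false

namespace Pool.Agent.helper70.QSD

open Pool.Agent.helper53.AU
open scoped Classical IntermediateField Polynomial
open Filter (Tendsto atTop)
open FirstOrder

noncomputable section

lemma REL_term (K Ω : Type) [Field K] [Field Ω] [Ring.CompatibleRing K] (ι : K →+* Ω) (α : Type)
    (t : Language.ring.Term α) (v : α → K) : tv t (fun i => ι (v i)) = ι (t.realize v) := by
  letI := Ring.compatibleRingOfRing Ω
  show t.realize (fun i => ι (v i)) = ι (t.realize v)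
  induction t with
  | var a => rfl
  | func f ts ih =>
    rw [Language.Term.realize, Language.Term.realize]
    have e : (fun i => (ts i).realize fun i => ι (v i)) = fun i => ι ((ts i).realize v) := by
      funext i; exact ih i
    rw [e]
    cases f with
    | add =>
      have e1 := Ring.CompatibleRing.funMap_add (R := Ω) (fun i => ι ((ts i).realize v))
      have e2 := Ring.CompatibleRing.funMap_add (R := K) (fun i => (ts i).realize v)
      exact e1.trans ((map_add ι _ _).symm.trans (congrArg ι e2.symm))
    | mul =>
      have e1 := Ring.CompatibleRing.funMap_mul (R := Ω) (fun i => ι ((ts i).realize v))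
      have e2 := Ring.CompatibleRing.funMap_mul (R := K) (fun i => (ts i).realize v)
      exact e1.trans ((map_mul ι _ _).symm.trans (congrArg ι e2.symm))
    | neg =>
      have e1 := Ring.CompatibleRing.funMap_neg (R := Ω) (fun i => ι ((ts i).realize v))
      have e2 := Ring.CompatibleRing.funMap_neg (R := K) (fun i => (ts i).realize v)
      exact e1.trans ((map_neg ι _).symm.trans (congrArg ι e2.symm))
    | zero =>
      have e1 := Ring.CompatibleRing.funMap_zero (R := Ω) (fun i => ι ((ts i).realize v))
      have e2 := Ring.CompatibleRing.funMap_zero (R := K) (fun i => (ts i).realize v)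
      exact e1.trans ((map_zero ι).symm.trans (congrArg ι e2.symm))
    | one =>
      have e1 := Ring.CompatibleRing.funMap_one (R := Ω) (fun i => ι ((ts i).realize v))
      have e2 := Ring.CompatibleRing.funMap_one (R := K) (fun i => (ts i).realize v)
      exact e1.trans ((map_one ι).symm.trans (congrArg ι e2.symm))

theorem REL : REL_stmt := by
  intro K Ω _ _ _ ι α n φ v xs
  induction φ with
  | falsum =>
    rw [RZ, Language.BoundedFormula.Realize]
  | equal t₁ t₂ =>
    have hs : Sum.elim (fun i => ι (v i)) (fun i => ι (xs i)) = fun i => ι (Sum.elim v xs i) := by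
      funext i
      rcases i with i | i <;> rfl
    rw [RZ, Language.BoundedFormula.Realize]
    rw [hs, REL_term, REL_term]
    exact ι.injective.eq_iff.symm
  | rel r ts => exact r.elim
  | imp φ ψ ih1 ih2 =>
    rw [RZ, Language.BoundedFormula.Realize]
    rw [ih1, ih2]
  | all φ ih =>
    rw [RZ, Language.BoundedFormula.Realize]
    have hsn : ∀ x : K, (Fin.snoc (fun i => ι (xs i)) (ι x) : Fin _ → Ω) =
        fun i => ι ((Fin.snoc xs x : Fin _ → K) i) := by
      intro x
      funext i
      refine Fin.lastCases ?_ (fun j => ?_) i
      · simp
      · simp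
    constructor
    · rintro h _ ⟨x, rfl⟩
      rw [hsn x]
      exact (ih _).1 (h x)
    · intro h x
      have := h (ι x) ⟨x, rfl⟩
      rw [hsn x] at this
      exact (ih _).2 this

end

end Pool.Agent.helper70.QSD
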