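import Pool.Agent.helper70.QSD.SpecD
import Mathlib.Order.Filter.Ultrafilter.Basic

/-!
# Project qsd, row TRN (the transfer theorem)
-/

set_option linter.unusedVariables false

namespace Pool.Agent.helper70.QSD

open Pool.Agent.helper53.AU
open scoped Classical IntermediateField Polynomial
open Filter (Tendsto atTop)
open FirstOrder

noncomputable section

theorem TRN (hFRB : FRB_stmt) (hLOS : LOS_stmt) (hBFE : BFE_stmt) (hINI : INI_stmt) : TRN_stmt := by
  intro r φ
  by_contra hno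
  have hex : ∀ j : ℕ, ∃ (n m : ℕ) (a : Fin r → kk), j ≤ n ∧ (j + 1).factorial ∣ m + 1 ∧
      (∀ i, a i ^ 2 ^ n = a i) ∧
      ¬ (RZ {x : kk | x ^ 2 ^ n = x} φ a default ↔ RZ {x : kk | x ^ 2 ^ (n * m) = x} φ a default) := by
    intro j
    by_contra hj
    apply hno
    refine ⟨j, (j + 1).factorial, Nat.factorial_pos _, ?_⟩
    intro n m hn hm a ha
    by_contra hc
    exact hj ⟨n, m, a, hn, hm, ha, hc⟩
  choose n m a h1 h2 h3 h4 using hex
  have hm1 : ∀ j, 1 ≤ j → 1 ≤ m j := by
    intro j hj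
    have h5 := Nat.le_of_dvd (Nat.succ_pos _) (h2 j)
    have h6 : 2 ≤ (j + 1).factorial := le_trans (by omega) (Nat.self_le_factorial (j + 1))
    omega
  have hN : Tendsto n atTop atTop := Filter.tendsto_atTop_mono h1 Filter.tendsto_id
  have hN' : Tendsto (fun j => n j * m j) atTop atTop := by
    refine Filter.tendsto_atTop_mono' atTop ?_ hN
    filter_upwards [Filter.eventually_ge_atTop 1] with j hj
    exact Nat.le_mul_of_pos_right _ (hm1 j hj)
  obtain ⟨Φ, hΦ⟩ := hFRB.1 n
  obtain ⟨Φ', hΦ'⟩ := hFRB.1 (fun j => n j * m j)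
  have hfix : ∀ i : Fin r, Φ (pr (fun j => a j i)) = pr (fun j => a j i) := by
    intro i
    rw [hΦ]
    have : (fun j => (a j i) ^ 2 ^ n j) = fun j => a j i := by
      funext j; exact h3 j i
    rw [this]
  have hdv : ∀ e : ℕ, 1 ≤ e → ∀ᶠ j in (UU : Filter ℕ), e ∣ m j + 1 := by
    intro e he
    have h7 : ∀ᶠ j in atTop, e ∣ m j + 1 := by
      filter_upwards [Filter.eventually_ge_atTop e] with j hj
      exact dvd_trans (Nat.dvd_factorial (by omega) (by omega)) (h2 j)
    exact h7.filter_mono _root_.Nat.hyperfilter_le_atTop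
  obtain ⟨A, hPos, hmem⟩ := hINI n m Φ Φ' hΦ hΦ' hdv r (fun i => pr (fun j => a j i)) hfix
  have hB := hBFE n (fun j => n j * m j) Φ Φ' hΦ hΦ' hN hN' (Fin r) 0 φ A A.subtype hPos
    (fun i => ⟨pr (fun j => a j i), hmem i⟩) default (fun i => hfix i) (fun i => i.elim0)
  have hL1 := hLOS n Φ hΦ (Fin r) 0 φ (fun i j => a j i) default
  have hL2 := hLOS (fun j => n j * m j) Φ' hΦ' (Fin r) 0 φ (fun i j => a j i) default
  have e1 : ∀ (s t : Fin 0 → KS), s = t := fun s t => Subsingleton.elim s t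
  have e2 : ∀ (s t : Fin 0 → kk), s = t := fun s t => Subsingleton.elim s t
  have hP : (∀ᶠ j in (UU : Filter ℕ), RZ {x : kk | x ^ 2 ^ n j = x} φ (a j) default) ↔
      ∀ᶠ j in (UU : Filter ℕ), RZ {x : kk | x ^ 2 ^ (n j * m j) = x} φ (a j) default := by
    have q1 : (∀ᶠ j in (UU : Filter ℕ), RZ {x : kk | x ^ 2 ^ n j = x} φ (a j) default) ↔
        RZ {x : KS | Φ x = x} φ (fun i => pr (fun j => a j i)) default := by
      have e3 : ∀ j, (fun i : Fin 0 => (default : Fin 0 → ℕ → kk) i j) = default := fun j => e2 _ _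
      rw [e1 (fun i => pr ((default : Fin 0 → ℕ → kk) i)) default] at hL1
      simp only [e3] at hL1
      exact hL1.symm
    have q2 : (∀ᶠ j in (UU : Filter ℕ), RZ {x : kk | x ^ 2 ^ (n j * m j) = x} φ (a j) default) ↔
        RZ {x : KS | Φ' x = x} φ (fun i => pr (fun j => a j i)) default := by
      have e3 : ∀ j, (fun i : Fin 0 => (default : Fin 0 → ℕ → kk) i j) = default := fun j => e2 _ _
      rw [e1 (fun i => pr ((default : Fin 0 → ℕ → kk) i)) default] at hL2
      simp only [e3] at hL2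
      exact hL2.symm
    rw [q1, q2]
    rw [e1 (fun i => (((default : Fin 0 → A) i : A) : KS)) default,
      e1 (fun i => A.subtype ((default : Fin 0 → A) i)) default] at hB
    exact hB
  by_cases hc : ∀ᶠ j in (UU : Filter ℕ), RZ {x : kk | x ^ 2 ^ n j = x} φ (a j) default
  · obtain ⟨j, hj1, hj2⟩ := (hc.and (hP.1 hc)).exists
    exact h4 j ⟨fun _ => hj2, fun _ => hj1⟩
  · have hc' : ¬ ∀ᶠ j in (UU : Filter ℕ), RZ {x : kk | x ^ 2 ^ (n j * m j) = x} φ (a j) default :=
      fun h => hc (hP.2 h)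
    have d1 := Ultrafilter.eventually_not.2 hc
    have d2 := Ultrafilter.eventually_not.2 hc'
    obtain ⟨j, hj1, hj2⟩ := (d1.and d2).exists
    exact h4 j ⟨fun h => absurd h hj1, fun h => absurd h hj2⟩

end

end Pool.Agent.helper70.QSD
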